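import Mathlib

set_option autoImplicit false

namespace Pool.Agent.H681.Dilate

/-- residues allowed modulo 25 -/
def B : Finset ℤ := {0, 1, 5, 6, 10, 11, 15, 16, 20, 21, 23}

/-- residues allowed modulo 24: the odd ones and 2 -/
def A : Finset ℤ := {1, 2, 3, 5, 7, 9, 11, 13, 15, 17, 19, 21, 23}

def TA : Finset ℤ := {0, 1, 3, 4, 5, 6, 7, 8, 9, 11, 12, 13, 15, 16, 17, 19, 20, 21, 23}

def TB : Finset ℤ := {0, 1, 2, 3, 5, 6, 7, 8, 10, 11, 12, 13, 15, 16, 17, 18, 19, 20, 21, 22, 23}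

/-- the set -/
noncomputable def S : Finset ℤ :=
  (Finset.Ico (0 : ℤ) 240600).filter (fun x => x % 24 ∈ A ∧ x % 25 ∈ B)

lemma mem_S (x : ℤ) : x ∈ S ↔ (0 ≤ x ∧ x < 240600) ∧ x % 24 ∈ A ∧ x % 25 ∈ B := by
  simp [S, Finset.mem_filter, Finset.mem_Ico]

lemma addA : ∀ y : Fin 24, ∃ a ∈ A, ∃ a' ∈ A, (a + a') % 24 = (y : ℤ) := by decide

lemma addB : ∀ y : Fin 25, ∃ a ∈ B, ∃ a' ∈ B, (a + a') % 25 = (y : ℤ) := by decide

lemma dilA : ∀ a ∈ A, ∀ a' ∈ A, (a + 2 * a') % 24 ∈ TA := by decide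

lemma dilB : ∀ a ∈ B, ∀ a' ∈ B, (a + 2 * a') % 25 ∈ TB := by decide

lemma rangeA : ∀ a ∈ A, 0 ≤ a ∧ a < 24 := by decide

lemma rangeB : ∀ a ∈ B, 0 ≤ a ∧ a < 25 := by decide

lemma addA' (y : ℤ) : ∃ a ∈ A, ∃ a' ∈ A, (a + a') % 24 = y % 24 := by
  have h0 : 0 ≤ y % 24 := Int.emod_nonneg _ (by norm_num)
  have h1 : y % 24 < 24 := Int.emod_lt_of_pos _ (by norm_num)
  obtain ⟨a, ha, a', ha', h⟩ := addA ⟨(y % 24).toNat, by omega⟩
  refine ⟨a, ha, a', ha', ?_⟩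
  rw [h]
  simp [Int.toNat_of_nonneg h0]

lemma addB' (y : ℤ) : ∃ a ∈ B, ∃ a' ∈ B, (a + a') % 25 = y % 25 := by
  have h0 : 0 ≤ y % 25 := Int.emod_nonneg _ (by norm_num)
  have h1 : y % 25 < 25 := Int.emod_lt_of_pos _ (by norm_num)
  obtain ⟨a, ha, a', ha', h⟩ := addB ⟨(y % 25).toNat, by omega⟩
  refine ⟨a, ha, a', ha', ?_⟩
  rw [h]
  simp [Int.toNat_of_nonneg h0]

lemma crt (a b : ℤ) (ha : 0 ≤ a ∧ a < 24) (hb : 0 ≤ b ∧ b < 25) :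
    ∃ s : ℤ, 0 ≤ s ∧ s < 600 ∧ s % 24 = a ∧ s % 25 = b := by
  refine ⟨(25 * a + 576 * b) % 600, ?_, ?_, ?_, ?_⟩
  · omega
  · omega
  · omega
  · omega

lemma place (y s : ℤ) (h1 : 600 ≤ y) (h2 : y < 480600) (hs0 : 0 ≤ s) (hs1 : s < 600) :
    ∃ q : ℤ, 0 ≤ s + 600 * q ∧ s + 600 * q < 240600 ∧ 0 ≤ y - (s + 600 * q) ∧
      y - (s + 600 * q) < 240600 := by
  obtain ⟨f, hf⟩ : ∃ f, f = (y - s) / 600 := ⟨_, rfl⟩
  have hfl : 600 * f ≤ y - s := by omega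
  have hfu : y - s < 600 * f + 600 := by omega
  clear hf
  by_cases h : f ≤ 400
  · exact ⟨0, by omega, by omega, by omega, by omega⟩
  · exact ⟨f - 400, by omega, by omega, by omega, by omega⟩

lemma shift24 (s q a : ℤ) (h : s % 24 = a) : (s + 600 * q) % 24 = a := by omega

lemma shift25 (s q a : ℤ) (h : s % 25 = a) : (s + 600 * q) % 25 = a := by omega

lemma diff24 (y x a a' : ℤ) (hx : x % 24 = a) (h : (a + a') % 24 = y % 24)
    (h0 : 0 ≤ a') (h1 : a' < 24) : (y - x) % 24 = a' := by omega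

lemma diff25 (y x a a' : ℤ) (hx : x % 25 = a) (h : (a + a') % 25 = y % 25)
    (h0 : 0 ≤ a') (h1 : a' < 25) : (y - x) % 25 = a' := by omega

/-- every integer of the middle range is a sum of two elements -/
lemma exists_sum (y : ℤ) (h1 : 600 ≤ y) (h2 : y < 480600) :
    ∃ x ∈ S, ∃ x' ∈ S, x + x' = y := by
  obtain ⟨a, ha, a', ha', haa⟩ := addA' y
  obtain ⟨b, hb, b', hb', hbb⟩ := addB' y
  have ra' := rangeA a' ha'
  have rb' := rangeB b' hb'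
  obtain ⟨s, hs0, hs1, hsa, hsb⟩ := crt a b (rangeA a ha) (rangeB b hb)
  obtain ⟨q, q1, q2, q3, q4⟩ := place y s h1 h2 hs0 hs1
  refine ⟨s + 600 * q, (mem_S _).2 ⟨⟨q1, q2⟩, ?_, ?_⟩,
    y - (s + 600 * q), (mem_S _).2 ⟨⟨q3, q4⟩, ?_, ?_⟩, by ring⟩
  · rw [shift24 s q a hsa]; exact ha
  · rw [shift25 s q b hsb]; exact hb
  · rw [diff24 y (s + 600 * q) a a' (shift24 s q a hsa) haa ra'.1 ra'.2]; exact ha'
  · rw [diff25 y (s + 600 * q) b b' (shift25 s q b hsb) hbb rb'.1 rb'.2]; exact hb'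

lemma crt_inj (u v : ℤ) (h24 : u % 24 = v % 24) (h25 : u % 25 = v % 25)
    (h600 : u / 600 = v / 600) : u = v := by
  have h1 : (600 : ℤ) ∣ u - v := by
    have a : (24 : ℤ) ∣ u - v := Int.ModEq.dvd (by unfold Int.ModEq; exact h24.symm)
    have b : (25 : ℤ) ∣ u - v := Int.ModEq.dvd (by unfold Int.ModEq; exact h25.symm)
    have c : IsCoprime (24 : ℤ) 25 := ⟨-1, 1, by norm_num⟩
    have := c.mul_dvd a b
    norm_num at this
    exact this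
  obtain ⟨w, hw⟩ := h1
  omega

/-- sums `x + 2 x'` fall into few residue classes -/
lemma dil_mem (x x' : ℤ) (hx : x ∈ S) (hx' : x' ∈ S) :
    (0 ≤ x + 2 * x' ∧ x + 2 * x' < 721800) ∧ (x + 2 * x') % 24 ∈ TA ∧ (x + 2 * x') % 25 ∈ TB := by
  obtain ⟨⟨a1, a2⟩, a3, a4⟩ := (mem_S x).1 hx
  obtain ⟨⟨b1, b2⟩, b3, b4⟩ := (mem_S x').1 hx'
  refine ⟨⟨by omega, by omega⟩, ?_, ?_⟩
  · have h := dilA _ a3 _ b3
    have e : (x % 24 + 2 * (x' % 24)) % 24 = (x + 2 * x') % 24 := by omega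
    rwa [e] at h
  · have h := dilB _ a4 _ b4
    have e : (x % 25 + 2 * (x' % 25)) % 25 = (x + 2 * x') % 25 := by omega
    rwa [e] at h

lemma card_sum (X : Finset ℤ) (hX : ∀ y : ℤ, 600 ≤ y → y < 480600 → y ∈ X) :
    480000 ≤ X.card := by
  have h : Finset.Ico (600 : ℤ) 480600 ⊆ X := by
    intro y hy
    rw [Finset.mem_Ico] at hy
    exact hX y hy.1 hy.2
  have := Finset.card_le_card h
  rw [Int.card_Ico] at this
  norm_num at this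
  exact this

lemma card_dil (X : Finset ℤ)
    (hX : ∀ y ∈ X, (0 ≤ y ∧ y < 721800) ∧ y % 24 ∈ TA ∧ y % 25 ∈ TB) :
    X.card ≤ 479997 := by
  obtain ⟨I, hI, hIc⟩ : ∃ I : Finset ℤ, (∀ z : ℤ, 0 ≤ z → z < 1203 → z ∈ I) ∧ I.card = 1203 := by
    refine ⟨Finset.Ico 0 1203, fun z h h' => Finset.mem_Ico.2 ⟨h, h'⟩, ?_⟩
    rw [Int.card_Ico, sub_zero]
    exact Int.toNat_natCast 1203
  obtain ⟨U, hU⟩ : ∃ U : Finset ℤ, U = TA := ⟨_, rfl⟩
  obtain ⟨V, hV⟩ : ∃ V : Finset ℤ, V = TB := ⟨_, rfl⟩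
  have c1 : U.card = 19 := by rw [hU]; rfl
  have c2 : V.card = 21 := by rw [hV]; rfl
  rw [← hU, ← hV] at hX
  clear hU hV
  have key : ∀ y ∈ X, (y / 600, (y % 24, y % 25)) ∈ I ×ˢ (U ×ˢ V) := by
    intro y hy
    obtain ⟨⟨h0, h1⟩, h2, h3⟩ := hX y hy
    have q0 : 0 ≤ y / 600 := by omega
    have q1 : y / 600 < 1203 := by omega
    exact Finset.mem_product.2 ⟨hI _ q0 q1, Finset.mem_product.2 ⟨h2, h3⟩⟩
  have h : X.card ≤ (I ×ˢ (U ×ˢ V)).card := by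
    refine Finset.card_le_card_of_injOn (fun y : ℤ => (y / 600, (y % 24, y % 25)))
      (fun y hy => key y hy) ?_
    intro u _ v _ huv
    simp only [Prod.mk.injEq] at huv
    exact crt_inj u v huv.2.1 huv.2.2 huv.1
  rw [Finset.card_product, Finset.card_product, c1, c2, hIc] at h
  norm_num at h
  exact h

/-- the set, with its two properties -/
theorem exists_S : ∃ S : Finset ℤ, S.Nonempty ∧
    (∀ s ∈ S, ∀ t ∈ S,
      (0 ≤ s + 2 * t ∧ s + 2 * t < 721800) ∧ (s + 2 * t) % 24 ∈ TA ∧ (s + 2 * t) % 25 ∈ TB) ∧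
    (∀ y : ℤ, 600 ≤ y → y < 480600 → ∃ x ∈ S, ∃ x' ∈ S, x + x' = y) := by
  refine ⟨S, ?_, fun s hs t ht => dil_mem s t hs ht, fun y h1 h2 => exists_sum y h1 h2⟩
  obtain ⟨x, hx, _⟩ := exists_sum 600 (by norm_num) (by norm_num)
  exact ⟨x, hx⟩

end Pool.Agent.H681.Dilate
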